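import Pool.Agent.Lib.H39N.Moebius

/-!
# The Cayley transform and lifts of Moebius transformations of the disc to SL(2,R)
-/

set_option autoImplicit false

open Complex Set Topology Filter
open scoped ComplexConjugate MatrixGroups UpperHalfPlane

namespace H39N

/-- The inverse Cayley transform as a function on the plane. -/
noncomputable def icC (w : ℂ) : ℂ := Complex.I * (1 + w) / (1 - w)

theorem one_sub_ne {w : ℂ} (hw : w ∈ Metric.ball (0 : ℂ) 1) : 1 - w ≠ 0 := by
  intro h
  rw [Metric.mem_ball, dist_zero_right, ← sub_eq_zero.mp h, norm_one] at hw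
  exact lt_irrefl _ hw

theorem icC_im {w : ℂ} (hw : w ∈ Metric.ball (0 : ℂ) 1) :
    (icC w).im = (1 - ‖w‖ ^ 2) / ‖1 - w‖ ^ 2 := by
  have h0 : (1 - w) ≠ 0 := one_sub_ne hw
  have h1 : icC w = Complex.I * ((1 + w) * conj (1 - w)) / ((‖1 - w‖ ^ 2 : ℝ) : ℂ) := by
    rw [icC, ← Complex.normSq_eq_norm_sq, ← Complex.mul_conj]
    have h2 : conj (1 - w) ≠ 0 := (map_ne_zero _).mpr h0
    field_simp
  rw [h1, Complex.div_ofReal_im, Complex.I_mul_im]
  congr 1
  rw [← Complex.normSq_eq_norm_sq, Complex.normSq_apply]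
  simp [Complex.mul_re]
  ring

theorem icC_im_pos {w : ℂ} (hw : w ∈ Metric.ball (0 : ℂ) 1) : 0 < (icC w).im := by
  rw [icC_im hw]
  have h1 : ‖w‖ < 1 := by rwa [Metric.mem_ball, dist_zero_right] at hw
  have h2 := norm_pos_iff.mpr (one_sub_ne hw)
  have h3 := norm_nonneg w
  have h4 : 0 < 1 - ‖w‖ ^ 2 := by nlinarith
  positivity

theorem add_I_ne (z : ℍ) : (z : ℂ) + Complex.I ≠ 0 := by
  intro h
  have h1 := congrArg Complex.im h
  simp only [Complex.add_im, UpperHalfPlane.coe_im, Complex.I_im, Complex.zero_im] at h1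
  linarith [z.im_pos]

theorem cay_mem (z : ℍ) : ((z : ℂ) - Complex.I) / (z + Complex.I) ∈ Metric.ball (0 : ℂ) 1 := by
  rw [Metric.mem_ball, dist_zero_right, norm_div, div_lt_one (norm_pos_iff.mpr (add_I_ne z))]
  have h1 : ‖(z : ℂ) - Complex.I‖ ^ 2 < ‖(z : ℂ) + Complex.I‖ ^ 2 := by
    rw [← Complex.normSq_eq_norm_sq, ← Complex.normSq_eq_norm_sq, Complex.normSq_apply,
      Complex.normSq_apply]
    simp only [Complex.sub_re, Complex.sub_im, Complex.add_re, Complex.add_im, Complex.I_re,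
      Complex.I_im, UpperHalfPlane.coe_re, UpperHalfPlane.coe_im]
    nlinarith [z.im_pos]
  exact lt_of_pow_lt_pow_left₀ 2 (norm_nonneg _) h1

/-- The Cayley transform. -/
noncomputable def cay : ℍ ≃ Metric.ball (0 : ℂ) 1 where
  toFun z := ⟨((z : ℂ) - Complex.I) / (z + Complex.I), cay_mem z⟩
  invFun w := ⟨icC w, icC_im_pos w.2⟩
  left_inv z := by
    apply UpperHalfPlane.ext
    show icC (((z : ℂ) - Complex.I) / (z + Complex.I)) = z
    have h1 := add_I_ne z
    have h2 : (1 : ℂ) - ((z : ℂ) - Complex.I) / (z + Complex.I) = 2 * Complex.I / (z + Complex.I) := by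
      field_simp
      ring
    have h3 : (1 : ℂ) + ((z : ℂ) - Complex.I) / (z + Complex.I) = 2 * z / (z + Complex.I) := by
      field_simp
      ring
    have h4 := Complex.I_ne_zero
    rw [icC, h2, h3]
    field_simp
  right_inv w := by
    apply Subtype.ext
    show (icC w - Complex.I) / (icC w + Complex.I) = w
    have h1 := one_sub_ne w.2
    have h4 := Complex.I_ne_zero
    have h2 : icC w - Complex.I = 2 * Complex.I * w / (1 - w) := by
      rw [icC]
      field_simp
      ring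
    have h3 : icC w + Complex.I = 2 * Complex.I / (1 - w) := by
      rw [icC]
      field_simp
      ring
    rw [h2, h3]
    field_simp

theorem coe_cay (z : ℍ) : ((cay z : Metric.ball (0 : ℂ) 1) : ℂ) =
    ((z : ℂ) - Complex.I) / (z + Complex.I) := rfl

theorem coe_cay_symm (w : Metric.ball (0 : ℂ) 1) : ((cay.symm w : ℍ) : ℂ) = icC w := rfl

theorem cay_cont : Continuous cay := by
  refine Continuous.subtype_mk ?_ _
  exact (UpperHalfPlane.continuous_coe.sub continuous_const).div
    (UpperHalfPlane.continuous_coe.add continuous_const) add_I_ne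

/-- The action of SL(2,R) transported to the disc. -/
noncomputable def Phi : SL(2, ℝ) →* Equiv.Perm (Metric.ball (0 : ℂ) 1) :=
  cay.permCongrHom.toMonoidHom.comp (MulAction.toPermHom SL(2, ℝ) ℍ)

theorem Phi_apply (g : SL(2, ℝ)) (w : Metric.ball (0 : ℂ) 1) : Phi g w = cay (g • cay.symm w) := rfl

theorem Phi_cay (g : SL(2, ℝ)) (z : ℍ) : Phi g (cay z) = cay (g • z) := by
  rw [Phi_apply, Equiv.symm_apply_apply]

/-- Every Moebius transformation of the disc comes from SL(2,R). -/
theorem exists_lift {γ : Equiv.Perm (Metric.ball (0 : ℂ) 1)} (h : IsMoebius γ) :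
    ∃ g : SL(2, ℝ), Phi g = γ := by
  obtain ⟨α, β, h1, h2⟩ := h.normal_form
  have hdet : (!![(α + β).re, (α - β).im; -(α + β).im, (α - β).re] : Matrix (Fin 2) (Fin 2) ℝ).det = 1 := by
    rw [Matrix.det_fin_two_of]
    rw [← Complex.normSq_eq_norm_sq, ← Complex.normSq_eq_norm_sq, Complex.normSq_apply,
      Complex.normSq_apply] at h1
    simp only [Complex.add_re, Complex.sub_re, Complex.add_im, Complex.sub_im]
    linarith
  obtain ⟨g, g00, g01, g10, g11⟩ : ∃ g : SL(2, ℝ), g 0 0 = (α + β).re ∧ g 0 1 = (α - β).im ∧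
      g 1 0 = -(α + β).im ∧ g 1 1 = (α - β).re := ⟨⟨_, hdet⟩, rfl, rfl, rfl, rfl⟩
  refine ⟨g, ?_⟩
  apply Equiv.ext
  intro w
  obtain ⟨z, rfl⟩ := cay.surjective w
  rw [Phi_cay]
  apply Subtype.ext
  obtain ⟨h3, h4⟩ := h2 (cay z)
  rw [h4, coe_cay, UpperHalfPlane.coe_specialLinearGroup_apply, g00, g01, g10, g11]
  rw [coe_cay] at h3 ⊢
  have hz := add_I_ne z
  obtain ⟨a, ha⟩ : ∃ a : ℂ, a = ((α + β).re : ℂ) := ⟨_, rfl⟩
  obtain ⟨b, hb⟩ : ∃ b : ℂ, b = ((α - β).im : ℂ) := ⟨_, rfl⟩
  obtain ⟨c, hc⟩ : ∃ c : ℂ, c = ((-(α + β).im : ℝ) : ℂ) := ⟨_, rfl⟩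
  obtain ⟨d, hd⟩ : ∃ d : ℂ, d = ((α - β).re : ℂ) := ⟨_, rfl⟩
  have e1 : a - Complex.I * c = α + β := by
    rw [ha, hc]
    apply Complex.ext <;> simp
  have e2 : b - Complex.I * d = -Complex.I * (α - β) := by
    rw [hb, hd]
    apply Complex.ext <;> simp
  have e3 : a + Complex.I * c = conj β + conj α := by
    rw [ha, hc]
    apply Complex.ext
    · simp; ring
    · simp
  have e4 : b + Complex.I * d = Complex.I * (conj α - conj β) := by
    rw [hb, hd]
    apply Complex.ext
    · simp; ring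
    · simp
  have hcd : c * z + d ≠ 0 := by
    have h5 := UpperHalfPlane.denom_ne_zero (g : GL (Fin 2) ℝ) z
    intro h6
    apply h5
    rw [UpperHalfPlane.denom]
    simpa [hc, hd, g10, g11] using h6
  simp only [Algebra.algebraMap_self, RingHom.id_apply]
  rw [← ha, ← hb, ← hc, ← hd]
  have k1 : (a * z + b) / (c * z + d) - Complex.I =
      ((α * (z - Complex.I) + β * (z + Complex.I))) / (c * z + d) := by
    rw [eq_div_iff hcd, sub_mul, div_mul_cancel₀ _ hcd]
    linear_combination (z : ℂ) * e1 + e2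
  have k2 : (a * z + b) / (c * z + d) + Complex.I =
      ((conj β * (z - Complex.I) + conj α * (z + Complex.I))) / (c * z + d) := by
    rw [eq_div_iff hcd, add_mul, div_mul_cancel₀ _ hcd]
    linear_combination (z : ℂ) * e3 + e4
  have k4 : α * (((z : ℂ) - Complex.I) / (z + Complex.I)) + β =
      (α * (z - Complex.I) + β * (z + Complex.I)) / (z + Complex.I) := by
    field_simp
  have k5 : conj β * (((z : ℂ) - Complex.I) / (z + Complex.I)) + conj α =
      (conj β * (z - Complex.I) + conj α * (z + Complex.I)) / (z + Complex.I) := by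
    field_simp
  rw [k1, k2, k4, k5, div_div_div_cancel_right₀ hcd, div_div_div_cancel_right₀ hz]

end H39N
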