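import Pool.Agent.Lib.H39N.Cayley
import Pool.Agent.Lib.H27.Geom5
import Pool.Agent.Lib.H27.ModF3

/-!
# Normal automorphic functions for discontinuous groups of Moebius transformations of the disc
-/

set_option autoImplicit false

open Complex Set Topology Filter
open scoped ComplexConjugate MatrixGroups UpperHalfPlane

namespace H39N

theorem triv_act {g : SL(2, ℝ)} (h : ∀ z : ℍ, g • z = z) : g = 1 ∨ g = -1 := by
  have h1 : ∀ z : ℍ, ((g 0 0 : ℝ) : ℂ) * z + (g 0 1 : ℝ) = ((g 1 0 : ℝ) * z + (g 1 1 : ℝ)) * z := by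
    intro z
    have h2 := congrArg (fun w : ℍ => (w : ℂ)) (h z)
    simp only [UpperHalfPlane.coe_specialLinearGroup_apply, Algebra.algebraMap_self,
      RingHom.id_apply] at h2
    have h3 : ((g 1 0 : ℝ) : ℂ) * z + (g 1 1 : ℝ) ≠ 0 := by
      have h5 := UpperHalfPlane.denom_ne_zero (g : GL (Fin 2) ℝ) z
      intro h6
      apply h5
      rw [UpperHalfPlane.denom]
      simpa using h6
    rw [div_eq_iff h3] at h2
    rw [h2]
    ring
  have h2 := h1 ⟨Complex.I, by simp⟩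
  have h3 := h1 ⟨2 * Complex.I, by simp⟩
  change ((g 0 0 : ℝ) : ℂ) * Complex.I + (g 0 1 : ℝ) =
    ((g 1 0 : ℝ) * Complex.I + (g 1 1 : ℝ)) * Complex.I at h2
  change ((g 0 0 : ℝ) : ℂ) * (2 * Complex.I) + (g 0 1 : ℝ) =
    ((g 1 0 : ℝ) * (2 * Complex.I) + (g 1 1 : ℝ)) * (2 * Complex.I) at h3
  have a1 := congrArg Complex.re h2
  have a2 := congrArg Complex.im h2
  have a3 := congrArg Complex.re h3
  simp at a1 a2 a3
  have hb : g 0 1 = 0 := by linarith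
  have hc : g 1 0 = 0 := by linarith
  have hdet := g.det_coe
  rw [Matrix.det_fin_two] at hdet
  have h4 : (g 0 0) * (g 0 0) = 1 := by
    rw [hb, hc, ← a2] at hdet
    linarith
  rcases mul_self_eq_one_iff.mp h4 with h5 | h5
  · left
    ext i j
    fin_cases i <;> fin_cases j <;> simp [hb, hc, h5, ← a2]
  · right
    ext i j
    fin_cases i <;> fin_cases j <;> simp [hb, hc, h5, ← a2]

theorem Phi_fiber (γ : Equiv.Perm (Metric.ball (0 : ℂ) 1)) : {g : SL(2, ℝ) | Phi g = γ}.Finite := by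
  rcases Set.eq_empty_or_nonempty {g : SL(2, ℝ) | Phi g = γ} with h | ⟨g₀, hg₀⟩
  · rw [h]
    exact Set.finite_empty
  · refine (Set.toFinite {g₀, g₀ * (-1)}).subset ?_
    intro g hg
    have h1 : ∀ z : ℍ, (g₀⁻¹ * g) • z = z := by
      intro z
      have h2 : Phi g (cay z) = Phi g₀ (cay z) := by
        rw [show Phi g = γ from hg, show Phi g₀ = γ from hg₀]
      rw [Phi_cay, Phi_cay] at h2
      rw [mul_smul, cay.injective h2, inv_smul_smul]
    rcases triv_act h1 with h2 | h2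
    · left
      exact (inv_mul_eq_one.mp h2).symm
    · right
      rw [Set.mem_singleton_iff, ← h2, mul_inv_cancel_left]

theorem proper (Γ : Subgroup (Equiv.Perm (Metric.ball (0 : ℂ) 1)))
    (hd : ∀ K : Set (Metric.ball (0 : ℂ) 1), IsCompact K →
      {γ : Equiv.Perm (Metric.ball (0 : ℂ) 1) | γ ∈ Γ ∧ ∃ z ∈ K, γ z ∈ K}.Finite) :
    Pool.Agent.Lib.H27.ProperlyDisc (Γ.comap Phi) := by
  intro K hK
  have h1 := hd (cay '' K) (hK.image cay_cont)
  refine (h1.preimage' (f := Phi) fun γ _ => Phi_fiber γ).subset ?_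
  rintro g ⟨hg, z, hz, hgz⟩
  exact ⟨hg, cay z, ⟨z, hz, rfl⟩, ⟨g • z, hgz, (Phi_cay g z).symm⟩⟩

theorem icC_an {w : ℂ} (hw : w ∈ Metric.ball (0 : ℂ) 1) : AnalyticAt ℂ icC w := by
  unfold icC
  exact (analyticAt_const.mul (analyticAt_const.add analyticAt_id)).div
    (analyticAt_const.sub analyticAt_id) (one_sub_ne hw)

theorem icC_deriv {w : ℂ} (hw : w ∈ Metric.ball (0 : ℂ) 1) :
    HasDerivAt icC (2 * Complex.I / (1 - w) ^ 2) w := by
  have h1 : HasDerivAt (fun w : ℂ => Complex.I * (1 + w)) Complex.I w := by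
    simpa using ((hasDerivAt_id w).const_add 1).const_mul Complex.I
  have h2 : HasDerivAt (fun w : ℂ => 1 - w) (-1) w := by
    simpa using (hasDerivAt_id w).const_sub 1
  have h3 := h1.div h2 (one_sub_ne hw)
  refine h3.congr_deriv ?_
  ring

theorem icC_inj : Set.InjOn icC (Metric.ball (0 : ℂ) 1) := by
  intro u hu v hv h
  have h1 : cay.symm ⟨u, hu⟩ = cay.symm ⟨v, hv⟩ := UpperHalfPlane.ext h
  exact congrArg Subtype.val (cay.symm.injective h1)

theorem tendsto_punct {g : ℂ → ℂ} {w : ℂ} {U : Set ℂ} (hU : U ∈ 𝓝 w) (hw : w ∈ U)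
    (hc : ContinuousAt g w) (hi : Set.InjOn g U) : Tendsto g (𝓝[≠] w) (𝓝[≠] (g w)) := by
  refine tendsto_nhdsWithin_of_tendsto_nhds_of_eventually_within _
    (hc.tendsto.mono_left nhdsWithin_le_nhds) ?_
  filter_upwards [self_mem_nhdsWithin, nhdsWithin_le_nhds hU] with u h1 h2
  intro h3
  exact h1 (hi h2 hw h3)

/-- The main theorem. -/
theorem disc_version (Γ : Subgroup (Equiv.Perm (Metric.ball (0 : ℂ) 1)))
    (hM : ∀ γ ∈ Γ, IsMoebius γ)
    (hd : ∀ K : Set (Metric.ball (0 : ℂ) 1), IsCompact K →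
      {γ : Equiv.Perm (Metric.ball (0 : ℂ) 1) | γ ∈ Γ ∧ ∃ z ∈ K, γ z ∈ K}.Finite) :
    ∃ f : ℂ → ℂ, MeromorphicNFOn f (Metric.ball (0 : ℂ) 1) ∧
      (∃ z ∈ Metric.ball (0 : ℂ) 1, ∃ w ∈ Metric.ball (0 : ℂ) 1,
        AnalyticAt ℂ f z ∧ AnalyticAt ℂ f w ∧ f z ≠ f w) ∧
      (∀ γ ∈ Γ, ∀ z : Metric.ball (0 : ℂ) 1,
        (AnalyticAt ℂ f (γ z) ↔ AnalyticAt ℂ f z) ∧ f (γ z) = f z) ∧
      ∃ M : ℝ, ∀ z ∈ Metric.ball (0 : ℂ) 1, AnalyticAt ℂ f z →
        (1 - ‖z‖ ^ 2) * (‖deriv f z‖ / (1 + ‖f z‖ ^ 2)) ≤ M := by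
  obtain ⟨dd⟩ := Pool.Agent.Lib.H27.exists_data (Γ.comap Phi) (proper Γ hd)
  obtain ⟨f₀, hf₀, ⟨z₁, z₂, hz₁, hz₂, hz₁₂⟩, hinv, M, hMb⟩ := Pool.Agent.Lib.H27.normal_of_data dd
  obtain ⟨U, hU⟩ : ∃ U : Set ℂ, U = Metric.ball (0 : ℂ) 1 := ⟨_, rfl⟩
  have hUo : IsOpen U := hU ▸ Metric.isOpen_ball
  have hUm : ∀ w : Metric.ball (0 : ℂ) 1, (w : ℂ) ∈ U := fun w => hU ▸ w.2
  obtain ⟨F₀, hF₀⟩ : ∃ F₀ : ℂ → ℂ, F₀ = f₀ ∘ icC := ⟨_, rfl⟩
  have hF₀m : MeromorphicOn F₀ U := by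
    intro w hw
    rw [hU] at hw
    rw [hF₀]
    exact (hf₀ (icC w) (icC_im_pos hw)).comp_analyticAt (icC_an hw)
  have hF₀a : ∀ w ∈ U, AnalyticAt ℂ f₀ (icC w) → AnalyticAt ℂ F₀ w := by
    intro w hw h
    rw [hU] at hw
    rw [hF₀]
    exact h.comp (icC_an hw)
  obtain ⟨F, hF⟩ : ∃ F : ℂ → ℂ, F = toMeromorphicNFOn F₀ U := ⟨_, rfl⟩
  have hFn : MeromorphicNFOn F U := hF ▸ meromorphicNFOn_toMeromorphicNFOn F₀ U
  have hFF : ∀ w ∈ U, F =ᶠ[𝓝[≠] w] F₀ := by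
    intro w hw
    rw [hF]
    exact hF₀m.toMeromorphicNFOn_eq_self_on_nhdsNE hw
  have hFF' : ∀ w ∈ U, AnalyticAt ℂ f₀ (icC w) → F =ᶠ[𝓝 w] F₀ := by
    intro w hw h
    exact ((hFn hw).eventuallyEq_nhdsNE_iff_eventuallyEq_nhds
      (hF₀a w hw h).meromorphicNFAt).mp (hFF w hw)
  have hgood : ∀ w ∈ U, ∀ᶠ u in 𝓝[≠] w, u ∈ U ∧ AnalyticAt ℂ f₀ (icC u) := by
    intro w hw
    have hw' : w ∈ Metric.ball (0 : ℂ) 1 := hU ▸ hw
    have h1 := (hf₀ (icC w) (icC_im_pos hw')).eventually_analyticAt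
    have h2 := tendsto_punct (hUo.mem_nhds hw) hw (icC_an hw').continuousAt (hU ▸ icC_inj)
    filter_upwards [nhdsWithin_le_nhds (hUo.mem_nhds hw), h2.eventually h1] with u h3 h4
    exact ⟨h3, h4⟩
  -- the invariance on good points
  have hcay : ∀ z : ℍ, icC (cay z) = z := by
    intro z
    rw [← coe_cay_symm, Equiv.symm_apply_apply]
  have hinvg : ∀ γ ∈ Γ, ∀ u : Metric.ball (0 : ℂ) 1, AnalyticAt ℂ f₀ (icC u) →
      AnalyticAt ℂ f₀ (icC (γ u)) → F (γ u) = F u := by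
    intro γ hγ u h1 h2
    obtain ⟨g, hg⟩ := exists_lift (hM γ hγ)
    have h3 : g ∈ Γ.comap Phi := by
      rw [Subgroup.mem_comap, hg]
      exact hγ
    have h4 : γ u = cay (g • cay.symm u) := by rw [← hg, Phi_apply]
    have h5 : icC (γ u) = ((g • cay.symm u : ℍ) : ℂ) := by rw [h4, hcay]
    have h6 : F (γ u) = F₀ (γ u) := (hFF' _ (hUm _) h2).eq_of_nhds
    have h7 : F u = F₀ u := (hFF' _ (hUm _) h1).eq_of_nhds
    rw [h6, h7, hF₀]
    show f₀ (icC (γ u)) = f₀ (icC u)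
    have h8 := hinv g h3 (cay.symm u) (by rw [coe_cay_symm]; exact h1) (by rw [← h5]; exact h2)
    rw [h5, h8, coe_cay_symm]
  refine ⟨F, hU ▸ hFn, ?_, ?_, ?_⟩
  · refine ⟨cay z₁, (cay z₁).2, cay z₂, (cay z₂).2, ?_, ?_, ?_⟩
    · have h1 : AnalyticAt ℂ f₀ (icC (cay z₁)) := by rw [hcay]; exact hz₁
      exact (hF₀a _ (hUm _) h1).congr (hFF' _ (hUm _) h1).symm
    · have h1 : AnalyticAt ℂ f₀ (icC (cay z₂)) := by rw [hcay]; exact hz₂
      exact (hF₀a _ (hUm _) h1).congr (hFF' _ (hUm _) h1).symm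
    · have h1 : AnalyticAt ℂ f₀ (icC (cay z₁)) := by rw [hcay]; exact hz₁
      have h2 : AnalyticAt ℂ f₀ (icC (cay z₂)) := by rw [hcay]; exact hz₂
      rw [(hFF' _ (hUm _) h1).eq_of_nhds, (hFF' _ (hUm _) h2).eq_of_nhds, hF₀]
      show f₀ (icC (cay z₁)) ≠ f₀ (icC (cay z₂))
      rw [hcay, hcay]
      exact hz₁₂
  · intro γ hγ z
    obtain ⟨α, β, hαβ, hγz⟩ := (hM γ hγ).normal_form
    obtain ⟨m, hm⟩ : ∃ m : ℂ → ℂ, m = fun u => (α * u + β) / (conj β * u + conj α) := ⟨_, rfl⟩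
    have hmγ : ∀ u : Metric.ball (0 : ℂ) 1, m u = γ u := by
      intro u
      rw [hm]
      exact (hγz u).2.symm
    have hma : AnalyticAt ℂ m z := by
      rw [hm]
      exact ((analyticAt_const.mul analyticAt_id).add analyticAt_const).div
        ((analyticAt_const.mul analyticAt_id).add analyticAt_const) (hγz z).1
    have hmi : Set.InjOn m U := by
      intro u hu v hv h
      rw [hU] at hu hv
      have h1 := hmγ ⟨u, hu⟩
      have h2 := hmγ ⟨v, hv⟩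
      have h3 : ((γ ⟨u, hu⟩ : Metric.ball (0 : ℂ) 1) : ℂ) = γ ⟨v, hv⟩ := by
        rw [← h1, ← h2]
        exact h
      exact congrArg Subtype.val (γ.injective (Subtype.ext h3))
    have hmz : m z ∈ U := by rw [hmγ]; exact hUm _
    have h1 := tendsto_punct (hUo.mem_nhds (hUm z)) (hUm z) hma.continuousAt hmi
    have h2 : F ∘ m =ᶠ[𝓝[≠] (z : ℂ)] F := by
      filter_upwards [hgood z (hUm z), h1.eventually (hgood (m z) hmz)] with u h3 h4
      have hu : u ∈ Metric.ball (0 : ℂ) 1 := hU ▸ h3.1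
      have h5 := hmγ ⟨u, hu⟩
      show F (m u) = F u
      have h6 := hinvg γ hγ ⟨u, hu⟩ h3.2 (by rw [← h5]; exact h4.2)
      rw [← h5] at h6
      exact h6
    have h3 : MeromorphicNFAt (F ∘ m) z := (hFn hmz).comp_analyticAt hma
    have h4 : F ∘ m =ᶠ[𝓝 (z : ℂ)] F :=
      (h3.eventuallyEq_nhdsNE_iff_eventuallyEq_nhds (hFn (hUm z))).mp h2
    have hval : F (γ z) = F z := by
      have h5 := h4.eq_of_nhds
      change F (m z) = F z at h5
      rwa [hmγ] at h5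
    refine ⟨?_, hval⟩
    have hmd : deriv m z ≠ 0 := by
      have h5 : HasDerivAt m ((α * (conj β * z + conj α) - (α * z + β) * conj β) /
          (conj β * z + conj α) ^ 2) z := by
        rw [hm]
        have k1 : HasDerivAt (fun u : ℂ => α * u + β) α z := by
          simpa using ((hasDerivAt_id (z : ℂ)).const_mul α).add_const β
        have k2 : HasDerivAt (fun u : ℂ => conj β * u + conj α) (conj β) z := by
          simpa using ((hasDerivAt_id (z : ℂ)).const_mul (conj β)).add_const (conj α)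
        exact k1.div k2 (hγz z).1
      rw [h5.deriv]
      refine div_ne_zero ?_ (pow_ne_zero 2 (hγz z).1)
      have h6 : α * (conj β * z + conj α) - (α * z + β) * conj β = ((‖α‖ ^ 2 - ‖β‖ ^ 2 : ℝ) : ℂ) := by
        rw [← Complex.normSq_eq_norm_sq, ← Complex.normSq_eq_norm_sq]
        push_cast
        rw [← Complex.mul_conj, ← Complex.mul_conj]
        ring
      rw [h6, hαβ]
      simp
    rw [← hmγ z, ← analyticAt_comp_iff_of_deriv_ne_zero hma hmd]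
    exact ⟨fun h => h.congr h4, fun h => h.congr h4.symm⟩
  · refine ⟨2 * M, fun w hw' hFw => ?_⟩
    have hw : w ∈ U := hU ▸ hw'
    have hG : ContinuousAt (fun u : ℂ => (1 - ‖u‖ ^ 2) * (‖deriv F u‖ / (1 + ‖F u‖ ^ 2))) w := by
      have h1 : ContinuousAt F w := hFw.continuousAt
      have h2 : ContinuousAt (deriv F) w := hFw.deriv.continuousAt
      have h3 : 1 + ‖F w‖ ^ 2 ≠ 0 := by positivity
      exact (continuousAt_const.sub (continuousAt_id.norm.pow 2)).mul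
        (h2.norm.div (continuousAt_const.add (h1.norm.pow 2)) h3)
    refine le_of_tendsto (hG.tendsto.mono_left (nhdsWithin_le_nhds (s := {w}ᶜ))) ?_
    filter_upwards [hgood w hw] with u hu
    obtain ⟨hu1, hu2⟩ := hu
    have hu' : u ∈ Metric.ball (0 : ℂ) 1 := hU ▸ hu1
    have h1 := hFF' u hu1 hu2
    have h2 : deriv F u = deriv f₀ (icC u) * (2 * Complex.I / (1 - u) ^ 2) := by
      rw [h1.deriv_eq, hF₀]
      have h3 : HasDerivAt f₀ (deriv f₀ (icC u)) (icC u) := hu2.differentiableAt.hasDerivAt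
      exact (h3.comp u (icC_deriv hu')).deriv
    have h3 : F u = f₀ (icC u) := by rw [h1.eq_of_nhds, hF₀]; rfl
    have h4 := hMb ⟨icC u, icC_im_pos hu'⟩ hu2
    change (icC u).im * ‖deriv f₀ (icC u)‖ / (1 + ‖f₀ (icC u)‖ ^ 2) ≤ M at h4
    rw [icC_im hu'] at h4
    have h5 : 0 < ‖1 - u‖ := norm_pos_iff.mpr (one_sub_ne hu')
    have h6 : (1 - ‖u‖ ^ 2) * (‖deriv F u‖ / (1 + ‖F u‖ ^ 2)) =
        2 * ((1 - ‖u‖ ^ 2) / ‖1 - u‖ ^ 2 * ‖deriv f₀ (icC u)‖ / (1 + ‖f₀ (icC u)‖ ^ 2)) := by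
      rw [h2, h3, norm_mul, norm_div, norm_mul, norm_pow, Complex.norm_I]
      simp only [Complex.norm_ofNat, mul_one]
      ring
    rw [h6]
    linarith

end H39N
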