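import Mathlib

/-!
# Moebius transformations of the unit disc
-/

set_option autoImplicit false

open Complex Set Topology Filter
open scoped ComplexConjugate

namespace H39N

/-- A Moebius transformation mapping the unit disc onto itself. -/
def IsMoebius (γ : Equiv.Perm (Metric.ball (0 : ℂ) 1)) : Prop :=
  ∃ a b c d : ℂ, a * d - b * c ≠ 0 ∧ ∀ z : Metric.ball (0 : ℂ) 1,
    c * (z : ℂ) + d ≠ 0 ∧ (γ z : ℂ) = (a * z + b) / (c * z + d)

theorem circle_eq {γ : Equiv.Perm (Metric.ball (0 : ℂ) 1)} {a b c d : ℂ} (hD : a * d - b * c ≠ 0)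
    (h : ∀ z : Metric.ball (0 : ℂ) 1, c * (z : ℂ) + d ≠ 0 ∧ (γ z : ℂ) = (a * z + b) / (c * z + d))
    (z : ℂ) (hz : ‖z‖ = 1) : ‖a * z + b‖ = ‖c * z + d‖ := by
  have h1 : ∀ w ∈ Metric.ball (0 : ℂ) 1, ‖a * w + b‖ ≤ ‖c * w + d‖ := by
    intro w hw
    obtain ⟨h2, h3⟩ := h ⟨w, hw⟩
    have h4 : ‖((γ ⟨w, hw⟩ : Metric.ball (0 : ℂ) 1) : ℂ)‖ < 1 := by
      have := (γ ⟨w, hw⟩).2
      rwa [Metric.mem_ball, dist_zero_right] at this
    rw [h3, norm_div, div_lt_one (norm_pos_iff.mpr h2)] at h4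
    exact h4.le
  have h2 : ‖a * z + b‖ ≤ ‖c * z + d‖ := by
    have hc : IsClosed {w : ℂ | ‖a * w + b‖ ≤ ‖c * w + d‖} :=
      isClosed_le (by fun_prop) (by fun_prop)
    have h3 : Metric.ball (0 : ℂ) 1 ⊆ {w : ℂ | ‖a * w + b‖ ≤ ‖c * w + d‖} := h1
    have h4 := closure_minimal h3 hc
    rw [closure_ball _ one_ne_zero] at h4
    exact h4 (by rw [Metric.mem_closedBall, dist_zero_right, hz])
  rcases h2.lt_or_eq with h3 | h3
  · exfalso
    have h4 : c * z + d ≠ 0 := by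
      intro h5
      rw [h5, norm_zero] at h3
      exact absurd h3 (not_lt.mpr (norm_nonneg _))
    have h5 : (a * z + b) / (c * z + d) ∈ Metric.ball (0 : ℂ) 1 := by
      rw [Metric.mem_ball, dist_zero_right, norm_div, div_lt_one (norm_pos_iff.mpr h4)]
      exact h3
    obtain ⟨w, hw⟩ := γ.surjective ⟨_, h5⟩
    have h6 := (h w).2
    rw [hw] at h6
    have h7 := (h w).1
    change (a * z + b) / (c * z + d) = _ at h6
    rw [div_eq_div_iff h4 h7] at h6
    have h8 : (a * d - b * c) * (z - w) = 0 := by linear_combination h6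
    rcases mul_eq_zero.mp h8 with h9 | h9
    · exact hD h9
    · have h10 := w.2
      rw [Metric.mem_ball, dist_zero_right, ← sub_eq_zero.mp h9, hz] at h10
      exact absurd h10 (lt_irrefl _)
  · exact h3

theorem norm_sq_aff (a b z : ℂ) (hz : ‖z‖ = 1) :
    ‖a * z + b‖ ^ 2 = ‖a‖ ^ 2 + ‖b‖ ^ 2 + 2 * (a * z * conj b).re := by
  rw [← Complex.normSq_eq_norm_sq, Complex.normSq_add, Complex.normSq_mul,
    Complex.normSq_eq_norm_sq, Complex.normSq_eq_norm_sq, Complex.normSq_eq_norm_sq, hz]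
  ring

/-- Every Moebius transformation of the disc has the normalised form. -/
theorem IsMoebius.normal_form {γ : Equiv.Perm (Metric.ball (0 : ℂ) 1)} (h : IsMoebius γ) :
    ∃ α β : ℂ, ‖α‖ ^ 2 - ‖β‖ ^ 2 = 1 ∧ ∀ z : Metric.ball (0 : ℂ) 1,
      conj β * (z : ℂ) + conj α ≠ 0 ∧ (γ z : ℂ) = (α * z + β) / (conj β * z + conj α) := by
  obtain ⟨a, b, c, d, hD, h⟩ := h
  have hE : ∀ z : ℂ, ‖z‖ = 1 → ‖a‖ ^ 2 + ‖b‖ ^ 2 + 2 * (a * z * conj b).re =
      ‖c‖ ^ 2 + ‖d‖ ^ 2 + 2 * (c * z * conj d).re := by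
    intro z hz
    rw [← norm_sq_aff a b z hz, ← norm_sq_aff c d z hz, circle_eq hD h z hz]
  have e1 := hE 1 (by simp)
  have e2 := hE (-1) (by simp)
  have e3 := hE I (by simp)
  have e4 : ‖a‖ ^ 2 + ‖b‖ ^ 2 = ‖c‖ ^ 2 + ‖d‖ ^ 2 := by
    simp only [mul_neg, mul_one, neg_mul, neg_re] at e1 e2
    linarith
  have e5 : (a * conj b).re = (c * conj d).re := by
    simp only [mul_one] at e1
    linarith
  have e6 : (a * conj b).im = (c * conj d).im := by
    have f1 : (a * I * conj b).re = -(a * conj b).im := by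
      have : a * I * conj b = I * (a * conj b) := by ring
      rw [this, I_mul_re]
    have f2 : (c * I * conj d).re = -(c * conj d).im := by
      have : c * I * conj d = I * (c * conj d) := by ring
      rw [this, I_mul_re]
    rw [f1, f2] at e3
    linarith
  have e7 : a * conj b = c * conj d := Complex.ext e5 e6
  have e8 : conj a * b = conj c * d := by
    have := congrArg conj e7
    simpa [map_mul] using this
  have na : (‖a‖ ^ 2 : ℝ) = ((a * conj a : ℂ)) := by rw [Complex.mul_conj, Complex.normSq_eq_norm_sq]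
  have nb : (‖b‖ ^ 2 : ℝ) = ((b * conj b : ℂ)) := by rw [Complex.mul_conj, Complex.normSq_eq_norm_sq]
  have nc : (‖c‖ ^ 2 : ℝ) = ((c * conj c : ℂ)) := by rw [Complex.mul_conj, Complex.normSq_eq_norm_sq]
  have nd : (‖d‖ ^ 2 : ℝ) = ((d * conj d : ℂ)) := by rw [Complex.mul_conj, Complex.normSq_eq_norm_sq]
  -- t > 0
  obtain ⟨t, ht⟩ : ∃ t : ℝ, t = ‖d‖ ^ 2 - ‖b‖ ^ 2 := ⟨_, rfl⟩
  have h0 : (0 : ℂ) ∈ Metric.ball (0 : ℂ) 1 := Metric.mem_ball_self one_pos
  have htp : 0 < t := by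
    obtain ⟨g1, g2⟩ := h ⟨0, h0⟩
    have g3 := (γ ⟨0, h0⟩).2
    rw [Metric.mem_ball, dist_zero_right, g2] at g3
    simp only [mul_zero, zero_add] at g1 g3
    rw [norm_div, div_lt_one (norm_pos_iff.mpr g1)] at g3
    rw [ht]
    nlinarith [norm_nonneg b, norm_nonneg d]
  have ht' : t = ‖a‖ ^ 2 - ‖c‖ ^ 2 := by rw [ht]; linarith
  have hc1 : (t : ℂ) = d * conj d - b * conj b := by rw [ht]; push_cast at nb nd ⊢; rw [nb, nd]
  have hc2 : (t : ℂ) = a * conj a - c * conj c := by rw [ht']; push_cast at na nc ⊢; rw [na, nc]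
  have g1 : conj d * (a * d - b * c) = a * t := by
    rw [hc1]
    linear_combination b * e7
  have g2 : conj c * (a * d - b * c) = b * t := by
    rw [hc2]
    linear_combination (-a) * e8
  have htc : (t : ℂ) ≠ 0 := by exact_mod_cast htp.ne'
  obtain ⟨u, hu⟩ : ∃ u : ℂ, u = (a * d - b * c) / t := ⟨_, rfl⟩
  have ha : a = u * conj d := by
    rw [hu]; field_simp; linear_combination -g1
  have hb : b = u * conj c := by
    rw [hu]; field_simp; linear_combination -g2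
  have hu1 : ‖u‖ = 1 := by
    have k1 : ‖a‖ = ‖u‖ * ‖d‖ := by rw [ha, norm_mul, RCLike.norm_conj]
    have k2 : ‖b‖ = ‖u‖ * ‖c‖ := by rw [hb, norm_mul, RCLike.norm_conj]
    rw [k1, k2] at e4
    have k3 : (‖u‖ ^ 2 - 1) * (‖c‖ ^ 2 + ‖d‖ ^ 2) = 0 := by nlinarith
    rcases mul_eq_zero.mp k3 with k4 | k4
    · have k5 : ‖u‖ ^ 2 = 1 := by linarith
      exact (pow_eq_one_iff_of_nonneg (norm_nonneg u) two_ne_zero).mp k5
    · exfalso
      have k5 : ‖d‖ ^ 2 = 0 := by nlinarith [sq_nonneg ‖c‖, sq_nonneg ‖d‖]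
      nlinarith [sq_nonneg ‖b‖]
  obtain ⟨v, hv⟩ := IsAlgClosed.exists_pow_nat_eq u (n := 2) two_pos
  have hv1 : ‖v‖ = 1 := by
    have : ‖v‖ ^ 2 = 1 := by rw [← norm_pow, hv, hu1]
    exact (pow_eq_one_iff_of_nonneg (norm_nonneg v) two_ne_zero).mp this
  have hvv : v * conj v = 1 := by rw [Complex.mul_conj, Complex.normSq_eq_norm_sq, hv1]; simp
  have hs : (0 : ℝ) < √t := Real.sqrt_pos.mpr htp
  have hsc : ((√t : ℝ) : ℂ) ≠ 0 := by exact_mod_cast hs.ne'
  obtain ⟨k, hk⟩ : ∃ k : ℂ, k = conj v / (√t : ℝ) := ⟨_, rfl⟩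
  have hk0 : k ≠ 0 := by
    rw [hk]
    refine div_ne_zero ?_ hsc
    intro h1
    rw [h1, mul_zero] at hvv
    exact zero_ne_one hvv
  have hkc : conj k = v / (√t : ℝ) := by
    rw [hk, map_div₀, Complex.conj_conj, Complex.conj_ofReal]
  have r1 : conj (k * a) = k * d := by
    rw [map_mul, hkc, ha, map_mul, Complex.conj_conj, ← hv, map_pow, hk]
    field_simp
    linear_combination d * conj v * hvv
  have r2 : conj (k * b) = k * c := by
    rw [map_mul, hkc, hb, map_mul, Complex.conj_conj, ← hv, map_pow, hk]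
    field_simp
    linear_combination c * conj v * hvv
  refine ⟨k * a, k * b, ?_, fun z => ?_⟩
  · have k1 : ‖k‖ ^ 2 = 1 / t := by
      rw [hk, norm_div, RCLike.norm_conj, hv1, Complex.norm_real, Real.norm_eq_abs, abs_of_pos hs,
        div_pow, Real.sq_sqrt htp.le, one_pow]
    have k2 : ‖a‖ = ‖d‖ := by rw [ha, norm_mul, RCLike.norm_conj, hu1, one_mul]
    rw [norm_mul, norm_mul, mul_pow, mul_pow, k1, k2, ← mul_sub, ← ht]
    field_simp
  · rw [r1, r2]
    obtain ⟨z1, z2⟩ := h z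
    have z3 : k * c * (z : ℂ) + k * d = k * (c * z + d) := by ring
    have z4 : k * a * (z : ℂ) + k * b = k * (a * z + b) := by ring
    rw [z3, z4, mul_div_mul_left _ _ hk0]
    exact ⟨mul_ne_zero hk0 z1, z2⟩

end H39N
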