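import Pool.Agent.Lib.H39N.Disc

/-!
# The spherical derivative at the poles
-/

set_option autoImplicit false

open Complex Set Topology Filter

namespace H39N

/-- At a pole of a meromorphic function `f` (in normal form) the function `1 / f` is analytic with value
`0`, and a bound of the spherical derivative off the poles is a bound of the spherical derivative of
`1 / f` at the pole. -/
theorem pole_bound {f : ℂ → ℂ} {U : Set ℂ} (hU : IsOpen U) (hf : MeromorphicNFOn f U) {M : ℝ}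
    (h : ∀ z ∈ U, AnalyticAt ℂ f z → (1 - ‖z‖ ^ 2) * (‖deriv f z‖ / (1 + ‖f z‖ ^ 2)) ≤ M)
    {z : ℂ} (hz : z ∈ U) (hp : ¬ AnalyticAt ℂ f z) :
    AnalyticAt ℂ f⁻¹ z ∧ (1 - ‖z‖ ^ 2) * (‖deriv f⁻¹ z‖ / (1 + ‖f⁻¹ z‖ ^ 2)) ≤ M := by
  have hfz := hf hz
  have hord : meromorphicOrderAt f z < 0 := by
    rw [← hfz.meromorphicOrderAt_nonneg_iff_analyticAt] at hp
    exact not_le.mp hp
  have hinv : MeromorphicNFAt f⁻¹ z := hfz.inv
  have han : AnalyticAt ℂ f⁻¹ z := by
    rw [← hinv.meromorphicOrderAt_nonneg_iff_analyticAt, meromorphicOrderAt_inv]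
    cases h1 : meromorphicOrderAt f z with
    | top => rw [h1] at hord; exact absurd hord (not_lt.mpr le_top)
    | coe n =>
      rw [h1] at hord
      have h2 : n < 0 := by exact_mod_cast hord
      have h3 : (0 : ℤ) ≤ -n := by omega
      exact_mod_cast h3
  refine ⟨han, ?_⟩
  have hG : ContinuousAt (fun u : ℂ => (1 - ‖u‖ ^ 2) * (‖deriv f⁻¹ u‖ / (1 + ‖f⁻¹ u‖ ^ 2))) z := by
    have h1 : ContinuousAt f⁻¹ z := han.continuousAt
    have h2 : ContinuousAt (deriv f⁻¹) z := han.deriv.continuousAt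
    have h3 : 1 + ‖f⁻¹ z‖ ^ 2 ≠ 0 := by positivity
    exact (continuousAt_const.sub (continuousAt_id.norm.pow 2)).mul
      (h2.norm.div (continuousAt_const.add (h1.norm.pow 2)) h3)
  refine le_of_tendsto (hG.tendsto.mono_left (nhdsWithin_le_nhds (s := {z}ᶜ))) ?_
  have hne : ∀ᶠ u in 𝓝[≠] z, f u ≠ 0 := by
    have h1 := tendsto_cobounded_of_meromorphicOrderAt_neg hord
    exact h1.eventually_ne_cobounded 0
  filter_upwards [hne, hfz.meromorphicAt.eventually_analyticAt,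
    nhdsWithin_le_nhds (hU.mem_nhds hz)] with u h1 h2 h3
  have h4 := h u h3 h2
  have h5 : HasDerivAt f⁻¹ (-deriv f u / f u ^ 2) u := h2.differentiableAt.hasDerivAt.inv h1
  have h6 : 0 < ‖f u‖ := norm_pos_iff.mpr h1
  have h7 : ‖deriv f⁻¹ u‖ / (1 + ‖f⁻¹ u‖ ^ 2) = ‖deriv f u‖ / (1 + ‖f u‖ ^ 2) := by
    rw [h5.deriv, Pi.inv_apply, norm_div, norm_neg, norm_pow, norm_inv]
    field_simp
    ring
  rw [h7]
  exact h4

end H39N
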